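import Mathlib

/-! # FQ/LOCA (helper45), core over Mathlib -/

set_option autoImplicit false

namespace Pool.Agent.P8H45.FQ

variable {F : Type} [Field F]

/-- the data used -/
structure D2 (T : Subgroup Fˣ) (O : ValuationSubring F) (J : Set F) : Prop where
  jm : ∀ x ∈ J, ∀ b ∈ O, x * b ∈ J
  sq : ∀ c : Fˣ, c ^ 2 ∈ T
  one_add : ∀ x : F, x ∈ O → x⁻¹ ∉ O → ∃ t ∈ T, (t : F) = 1 + x
  gen : ∀ y : Fˣ, (y : F) ∈ O → (y : F)⁻¹ ∉ O → (y : F) ∉ J → ∀ t ∈ T,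
    ∃ b ∈ O, ∃ c : Fˣ, (t : F) = (1 + y * y * b) * c ^ 2
  cls : ∀ x : Fˣ, ∃ z : Fˣ, x⁻¹ * z ∈ T ∧ (z : F) ∈ O ∧ (z : F)⁻¹ ∉ O ∧ (z : F) ∉ J

theorem loca_core {T : Subgroup Fˣ} {O : ValuationSubring F} {J : Set F} (h2 : (2 : F) ≠ 0) (h : D2 T O J)
    (hhalf : (2 : F)⁻¹ ∈ O) (w x y v : Fˣ) (hw : (w : F) ∈ O) (hw' : (w : F)⁻¹ ∉ O) (hwJ : (w : F) ∉ J)
    (hv : (v : F) = 2 * w) (hyv : y⁻¹ * v ∈ T)
    (hXY : ∃ X Y : Fˣ, (X : F) + Y = 1 ∧ x⁻¹ * X ∈ T ∧ y⁻¹ * Y ∈ T) :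
    ∃ a c : Fˣ, a = x * c ^ 2 ∧ (((a : F) ∈ O ∧ (a : F)⁻¹ ∈ O) ∨ ((a : F) ∈ O ∧ (a : F)⁻¹ ∉ O ∧ (a : F) ∉ J) ∨
        ((a : F)⁻¹ ∈ O ∧ (a : F) ∉ O ∧ (a : F)⁻¹ ∉ J)) ∧
      ∀ W : Fˣ, (∃ b ∈ O, (W : F) = a * (1 + w * w * b)) → ∃ z : Fˣ, (z : F) = 1 - W ∧ y⁻¹ * z ∈ T := by
  obtain ⟨X, Y, hsum, hX, hY⟩ := hXY
  set V := O.valuation with hV
  have mO : ∀ a : F, a ∈ O ↔ V a ≤ 1 := fun a => (O.valuation_le_one_iff a).symm
  have vpos : ∀ u : Fˣ, 0 < V (u : F) := fun u => by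
    rw [zero_lt_iff]
    exact (Valuation.ne_zero_iff _).2 u.ne_zero
  have vinv : ∀ u : Fˣ, V (u : F)⁻¹ = (V (u : F))⁻¹ := fun u => map_inv₀ _ _
  have lt_iff : ∀ u : Fˣ, (u : F)⁻¹ ∉ O ↔ V (u : F) < 1 := by
    intro u
    rw [mO, not_le, vinv, one_lt_inv₀ (vpos u)]
  have gt_iff : ∀ u : Fˣ, (u : F) ∉ O ↔ 1 < V (u : F) := fun u => by rw [mO, not_le]
  have hVw : V (w : F) < 1 := (lt_iff w).1 hw'
  set q : Fˣ →* Fˣ ⧸ T := QuotientGroup.mk' T with hq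
  have q1 : ∀ u : Fˣ, u ∈ T ↔ q u = 1 := fun u => (QuotientGroup.eq_one_iff u).symm
  have qd : ∀ u u' : Fˣ, u⁻¹ * u' ∈ T ↔ q u' = q u := by
    intro u u'
    rw [q1, map_mul, map_inv, inv_mul_eq_one, eq_comm]
  have qsq : ∀ c : Fˣ, q (c ^ 2) = 1 := fun c => (q1 _).1 (h.sq c)
  have qm : ∀ u u' : Fˣ, q u' = 1 → q (u * u') = q u := by
    intro u u' hu'
    apply (qd _ _).1
    rw [inv_mul_cancel_left]
    exact (q1 _).2 hu'
  have oneT : ∀ u : F, V u < 1 → ∃ t : Fˣ, (t : F) = 1 + u ∧ q t = 1 ∧ V (t : F) = 1 := by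
    intro u hu
    have hV1 : V (1 + u) = 1 := Valuation.map_one_add_of_lt _ hu
    by_cases h0 : u = 0
    · subst h0
      exact ⟨1, by simp, map_one q, by simp⟩
    · obtain ⟨t, ht, e⟩ := h.one_add u ((mO _).2 hu.le) (by
        have := (lt_iff (Units.mk0 u h0)).2 hu
        exact this)
      exact ⟨t, e, (q1 t).1 ht, by rw [e]; exact hV1⟩
  -- elements `1 + w² b`
  have eW : ∀ b ∈ O, ∃ e : Fˣ, (e : F) = 1 + w * w * b ∧ q e = 1 ∧ V (e : F) = 1 := by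
    intro b hb
    apply oneT
    rw [map_mul, map_mul]
    have hb' := (mO b).1 hb
    calc V (w : F) * V (w : F) * V b ≤ V (w : F) * V (w : F) * 1 := mul_le_mul_right hb' _
      _ = V (w : F) * V (w : F) := mul_one _
      _ < 1 := mul_lt_one_of_lt_of_le hVw hVw.le
  have gen' : ∀ t : Fˣ, q t = 1 → ∃ b ∈ O, ∃ e c : Fˣ, (e : F) = 1 + w * w * b ∧ q e = 1 ∧ V (e : F) = 1 ∧
      t = e * c ^ 2 := by
    intro t ht
    obtain ⟨b, hb, c, hc⟩ := h.gen w hw hw' hwJ t ((q1 t).2 ht)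
    obtain ⟨e, he, he1, he2⟩ := eW b hb
    refine ⟨b, hb, e, c, he, he1, he2, Units.ext ?_⟩
    rw [hc, Units.val_mul, Units.val_pow_eq_pow_val, he]
  have Jun : ∀ z e : Fˣ, (z : F) ∉ J → V (e : F) = 1 → ((z * e⁻¹ : Fˣ) : F) ∉ J := by
    intro z e hz he hJ
    apply hz
    have := h.jm _ hJ (e : F) ((mO _).2 he.le)
    rwa [← Units.val_mul, inv_mul_cancel_right] at this
  have hqX : q X = q x := (qd _ _).1 hX
  have hqY : q Y = q y := (qd _ _).1 hY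
  have hYX : (Y : F) = 1 - X := by rw [← hsum]; ring
  rcases lt_trichotomy (V (X : F)) 1 with hVX | hVX | hVX
  · -- (B)
    obtain ⟨z, hz, hzO, hzO', hzJ⟩ := h.cls x
    obtain ⟨b, hb, e, c, he, he1, he2, hec⟩ := gen' _ ((q1 _).1 hz)
    have hVz : V (z : F) < 1 := (lt_iff z).1 hzO'
    have ha : x * c ^ 2 = z * e⁻¹ := by
      rw [eq_mul_inv_iff_mul_eq, mul_assoc, mul_comm (c ^ 2), ← hec, mul_inv_cancel_left]
    have hVa : V ((x * c ^ 2 : Fˣ) : F) = V (z : F) := by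
      rw [ha, Units.val_mul, map_mul, Units.val_inv_eq_inv_val, vinv, he2, inv_one, mul_one]
    refine ⟨x * c ^ 2, c, rfl, Or.inr (Or.inl ⟨(mO _).2 (hVa ▸ hVz.le), (lt_iff _).2 (hVa ▸ hVz), ?_⟩), ?_⟩
    · rw [ha]
      exact Jun z e hzJ he2
    · rintro W ⟨b', hb', hW⟩
      obtain ⟨e', he', -, he2'⟩ := eW b' hb'
      have hVW : V (-(W : F)) < 1 := by
        rw [Valuation.map_neg, hW, map_mul, ← he', he2', mul_one, hVa]
        exact hVz
      obtain ⟨t, ht, ht1, -⟩ := oneT _ hVW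
      obtain ⟨t', ht', ht1', -⟩ := oneT (-(X : F)) (by rw [Valuation.map_neg]; exact hVX)
      have hYt : Y = t' := Units.ext (by rw [ht', hYX]; ring)
      refine ⟨t, by rw [ht]; ring, (qd _ _).2 ?_⟩
      rw [ht1, ← hqY, hYt, ht1']
  · -- `X` is a unit
    have hVY1 : V (Y : F) ≤ 1 := by
      rw [hYX]
      refine (Valuation.map_sub _ _ _).trans ?_
      rw [map_one, hVX, max_self]
    rcases hVY1.lt_or_eq with hVY | hVY
    · -- (D)
      obtain ⟨t', ht', ht1', -⟩ := oneT (-(Y : F)) (by rw [Valuation.map_neg]; exact hVY)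
      have hXt : X = t' := Units.ext (by rw [ht', hYX]; ring)
      have hx1 : q x = 1 := by rw [← hqX, hXt, ht1']
      obtain ⟨b, hb, e, c, he, he1, he2, hec⟩ := gen' x hx1
      obtain ⟨s, hs, hs1, hs2⟩ := oneT (w : F) hVw
      have ha : x * (c⁻¹ * s⁻¹) ^ 2 = e * (s⁻¹) ^ 2 := by
        rw [hec, mul_pow, inv_pow c, ← mul_assoc, mul_inv_cancel_right]
      have hVa : V ((x * (c⁻¹ * s⁻¹) ^ 2 : Fˣ) : F) = 1 := by
        rw [ha, Units.val_mul, Units.val_pow_eq_pow_val, map_mul, map_pow, Units.val_inv_eq_inv_val, vinv, hs2, he2]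
        simp
      refine ⟨x * (c⁻¹ * s⁻¹) ^ 2, c⁻¹ * s⁻¹, rfl, Or.inl ⟨(mO _).2 hVa.le, ?_⟩, ?_⟩
      · rw [mO, vinv, hVa, inv_one]
      · rintro W ⟨b', hb', hW⟩
        have hs0 : (s : F) ≠ 0 := s.ne_zero
        have hVr : V ((w : F) * ((2 : F)⁻¹ * (1 - b - b' - w * w * b * b'))) < 1 := by
          rw [map_mul]
          have : (2 : F)⁻¹ * (1 - b - b' - w * w * b * b') ∈ O :=
            O.mul_mem _ _ hhalf (O.sub_mem (O.sub_mem (O.sub_mem O.one_mem hb) hb')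
              (O.mul_mem _ _ (O.mul_mem _ _ (O.mul_mem _ _ hw hw) hb) hb'))
          exact mul_lt_one_of_lt_of_le hVw ((mO _).1 this)
        obtain ⟨t, ht, ht1, -⟩ := oneT _ hVr
        refine ⟨v * t * (s⁻¹) ^ 2, ?_, (qd _ _).2 ?_⟩
        · rw [Units.val_mul, Units.val_mul, Units.val_pow_eq_pow_val, Units.val_inv_eq_inv_val, ht, hv, hW, ha,
            Units.val_mul, Units.val_pow_eq_pow_val, Units.val_inv_eq_inv_val, he]
          field_simp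
          rw [hs]
          ring
        · rw [qm _ _ (qsq _), qm _ _ ht1]
          exact (qd _ _).1 hyv
    · -- (C)
      obtain ⟨b, hb, e, c, he, he1, he2, hec⟩ := gen' _ ((q1 _).1 hX)
      have ha : x * c ^ 2 = X * e⁻¹ := by
        rw [eq_mul_inv_iff_mul_eq, mul_assoc, mul_comm (c ^ 2), ← hec, mul_inv_cancel_left]
      have hVa : V ((x * c ^ 2 : Fˣ) : F) = 1 := by
        rw [ha, Units.val_mul, map_mul, Units.val_inv_eq_inv_val, vinv, he2, inv_one, mul_one, hVX]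
      refine ⟨x * c ^ 2, c, rfl, Or.inl ⟨(mO _).2 hVa.le, ?_⟩, ?_⟩
      · rw [mO, vinv, hVa, inv_one]
      · rintro W ⟨b', hb', hW⟩
        have he0 : (e : F) ≠ 0 := e.ne_zero
        have hY0 : (Y : F) ≠ 0 := Y.ne_zero
        have hWX : (W : F) - X = X * (e : F)⁻¹ * (w * w * (b' - b)) := by
          rw [hW, ha, Units.val_mul, Units.val_inv_eq_inv_val]
          have : (X : F) = X * (e : F)⁻¹ * e := by field_simp
          conv_lhs => rw [this]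
          rw [he]
          rw [he] at he0
          field_simp
          ring
        have hVr : V (-(((W : F) - X) * (Y : F)⁻¹)) < 1 := by
          rw [Valuation.map_neg, hWX]
          simp only [map_mul]
          rw [vinv, vinv, hVX, he2, hVY]
          simp only [inv_one, one_mul, mul_one]
          have h1 : V (b' - b) ≤ 1 := (mO _).1 (O.sub_mem hb' hb)
          calc V (w : F) * V (w : F) * V (b' - b) ≤ V (w : F) * V (w : F) * 1 := mul_le_mul_right h1 _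
            _ = V (w : F) * V (w : F) := mul_one _
            _ < 1 := mul_lt_one_of_lt_of_le hVw hVw.le
        obtain ⟨t, ht, ht1, -⟩ := oneT _ hVr
        refine ⟨Y * t, ?_, (qd _ _).2 ?_⟩
        · rw [Units.val_mul, ht, mul_add, mul_one]
          field_simp
          rw [hYX]
          ring
        · rw [qm _ _ ht1, hqY]
  · -- (A)
    obtain ⟨z, hz, hzO, hzO', hzJ⟩ := h.cls x⁻¹
    rw [inv_inv] at hz
    obtain ⟨b, hb, e, c, he, he1, he2, hec⟩ := gen' _ ((q1 _).1 hz)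
    have hVz : V (z : F) < 1 := (lt_iff z).1 hzO'
    have ha : (x * (c⁻¹) ^ 2)⁻¹ = z * e⁻¹ := by
      rw [eq_mul_inv_iff_mul_eq, inv_mul_eq_iff_eq_mul, inv_pow, mul_assoc, mul_comm ((c ^ 2)⁻¹) z, ← mul_assoc, hec,
        mul_inv_cancel_right]
    have ha' : ((x * (c⁻¹) ^ 2 : Fˣ) : F)⁻¹ = ((z * e⁻¹ : Fˣ) : F) := by rw [← ha, Units.val_inv_eq_inv_val]
    have hVa : V ((x * (c⁻¹) ^ 2 : Fˣ) : F)⁻¹ = V (z : F) := by
      rw [ha', Units.val_mul, map_mul, Units.val_inv_eq_inv_val, vinv, he2, inv_one, mul_one]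
    have hVa1 : 1 < V ((x * (c⁻¹) ^ 2 : Fˣ) : F) := by
      rw [vinv] at hVa
      rw [← inv_lt_one₀ (vpos _), hVa]
      exact hVz
    refine ⟨x * (c⁻¹) ^ 2, c⁻¹, rfl, Or.inr (Or.inr ⟨(mO _).2 (hVa ▸ hVz.le), (gt_iff _).2 hVa1, ?_⟩), ?_⟩
    · rw [ha']
      exact Jun z e hzJ he2
    · rintro W ⟨b', hb', hW⟩
      obtain ⟨e', he', he1', he2'⟩ := eW b' hb'
      have hWe : W = x * (c⁻¹) ^ 2 * e' := Units.ext (by rw [hW, ← he', ← Units.val_mul])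
      have hqW : q W = q x := (congrArg q hWe).trans ((qm _ _ he1').trans (qm _ _ (qsq c⁻¹)))
      have hVW : 1 < V (W : F) := by
        rw [hWe, Units.val_mul, map_mul, he2', mul_one]
        exact hVa1
      have key : ∀ Z : Fˣ, 1 < V (Z : F) → ∃ t : Fˣ, (t : F) = 1 - Z ∧ q t = q (-1) * q Z := by
        intro Z hZ
        obtain ⟨t, ht, ht1, -⟩ := oneT (-(Z : F)⁻¹) (by
          rw [Valuation.map_neg, vinv]
          exact inv_lt_one_of_one_lt₀ hZ)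
        refine ⟨-1 * Z * t, ?_, by rw [qm _ _ ht1, map_mul]⟩
        have hZ0 : (Z : F) ≠ 0 := Z.ne_zero
        rw [Units.val_mul, Units.val_mul, ht, Units.val_neg, Units.val_one]
        field_simp
        ring
      obtain ⟨t, ht, ht1⟩ := key W hVW
      obtain ⟨t', ht', ht1'⟩ := key X hVX
      have hYt : Y = t' := Units.ext (by rw [ht', hYX])
      refine ⟨t, ht, (qd _ _).2 ?_⟩
      rw [ht1, hqW, ← hqX, ← ht1', ← hYt, hqY]

end Pool.Agent.P8H45.FQ
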