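import Pool.Agent.P8H47.FP.Stm6
import Pool.Agent.P8H45.FQ.LocaCore

/-! # FQ/LOCA (helper45) -/

set_option autoImplicit false

namespace Pool.Agent.P8H45.FQ

open Pool.Agent.P8H47.EC2 (Dat)

theorem d2 {F : Type} [Field F] {T : Subgroup Fˣ} {O : ValuationSubring F} {J : Set F} (h : Dat 2 T O J) : D2 T O J where
  jm := h.pi.mul
  sq := fun c => h.pw ⟨c, rfl⟩
  one_add := h.one_add
  gen := h.gen
  cls := h.cls

theorem loca : Pool.Agent.P8H47.FP.S_LOCA := by
  intro F _ h2 T O J h hhalf w x y v hw hw' hwJ hv hyv hXY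
  exact loca_core h2 (d2 h) hhalf w x y v hw hw' hwJ hv hyv hXY

end Pool.Agent.P8H45.FQ
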